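import Mathlib

set_option autoImplicit false

open Filter Topology Set

universe u

namespace Pool.Agent.R881.SC

/-- a sequence of vectors on which every functional eventually vanishes eventually vanishes -/
theorem eventually_zero {F : Type} {V : Type u} [Field F] [AddCommGroup V] [Module F V] (v : ℕ → V)
    (h : ∀ χ : V →ₗ[F] F, ∀ᶠ n in atTop, χ (v n) = 0) : ∀ᶠ n in atTop, v n = 0 := by
  classical
  set W : Submodule F V := Submodule.span F (Set.range v) with hW
  let w : ℕ → W := fun n => ⟨v n, Submodule.subset_span ⟨n, rfl⟩⟩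
  have hw : ∀ χ : W →ₗ[F] F, ∀ᶠ n in atTop, χ (w n) = 0 := by
    intro χ
    obtain ⟨χ', hχ'⟩ := LinearMap.exists_extend χ
    filter_upwards [h χ'] with n hn
    rw [← hχ']
    exact hn
  have hfin : Module.Finite F W := by
    by_contra hnf
    have hrank : Cardinal.aleph0 ≤ Module.rank F W := by
      rw [← not_lt]
      intro hlt
      exact hnf (Module.rank_lt_aleph0_iff.1 hlt)
    have hsupp : ∀ χ : W →ₗ[F] F, (Function.support fun n => χ (w n)).Finite := by
      intro χ
      have := hw χ
      rw [← Nat.cofinite_eq_atTop] at this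
      exact this
    let Φ : (W →ₗ[F] F) →ₗ[F] (ℕ →₀ F) :=
      { toFun := fun χ => Finsupp.ofSupportFinite (fun n => χ (w n)) (hsupp χ)
        map_add' := by intro a b; ext n; rfl
        map_smul' := by intro a b; ext n; rfl }
    have hΦ : Function.Injective Φ := by
      rw [injective_iff_map_eq_zero]
      intro χ hχ
      have h1 : ∀ n, χ (w n) = 0 := fun n => by
        have := DFunLike.congr_fun hχ n
        exact this
      have h2 : ∀ x : V, ∀ hx : x ∈ W, χ ⟨x, hx⟩ = 0 := by
        intro x hx
        induction hx using Submodule.span_induction with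
        | mem x hx => obtain ⟨n, rfl⟩ := hx; exact h1 n
        | zero => exact map_zero χ
        | add x y hx hy h3 h4 =>
          have : (⟨x + y, Submodule.add_mem _ hx hy⟩ : W) = ⟨x, hx⟩ + ⟨y, hy⟩ := rfl
          rw [this, map_add, h3, h4, add_zero]
        | smul a x hx h3 =>
          have : (⟨a • x, Submodule.smul_mem _ a hx⟩ : W) = a • ⟨x, hx⟩ := rfl
          rw [this, map_smul, h3, smul_zero]
      ext x
      exact h2 x x.2
    have h1 := lift_rank_lt_rank_dual (K := F) (V := W) hrank
    have h2 := LinearMap.lift_rank_le_of_injective Φ hΦ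
    have h3 : Module.rank F (ℕ →₀ F) = Cardinal.aleph0 := by
      rw [rank_finsupp_self]
      simp
    rw [h3] at h2
    simp only [Cardinal.lift_id, Cardinal.lift_aleph0, Cardinal.lift_uzero] at h1 h2
    exact absurd (hrank.trans_lt (h1.trans_le h2)) (lt_irrefl _)
  let b := Module.finBasis F W
  have hb : ∀ᶠ n in atTop, ∀ i, b.coord i (w n) = 0 := by
    rw [Filter.eventually_all]
    exact fun i => hw (b.coord i)
  filter_upwards [hb] with n hn
  have : w n = 0 := (Module.Basis.forall_coord_eq_zero_iff b).1 hn
  exact congrArg Subtype.val this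

end Pool.Agent.R881.SC
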