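import Mathlib

set_option autoImplicit false

open Filter Topology Set

universe u

namespace Pool.Agent.R881.SC

/-- A (Hausdorff abelian) topological group `G` is locally minimal: there is a neighbourhood `V` of
`0` such that every continuous isomorphism `f` of `G` onto a Hausdorff group `H` for which `f(V)` is
a neighbourhood of `0` is open. -/
def LocallyMinimal (G : Type u) [AddCommGroup G] [TopologicalSpace G] : Prop :=
  ∃ V ∈ 𝓝 (0 : G), ∀ (H : Type u) [AddCommGroup H] [TopologicalSpace H] [IsTopologicalAddGroup H]
    [T2Space H] (f : G ≃+ H), Continuous f → f '' V ∈ 𝓝 (0 : H) → IsOpenMap f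

/-- Every Cauchy sequence converges. -/
def SeqComplete (G : Type u) [UniformSpace G] : Prop :=
  ∀ x : ℕ → G, CauchySeq x → ∃ a, Tendsto x atTop (𝓝 a)

/-- The weight of a topological space: the least cardinality of a base. -/
noncomputable def weight (X : Type u) [TopologicalSpace X] : Cardinal.{u} :=
  sInf {c | ∃ B : Set (Set X), TopologicalSpace.IsTopologicalBasis B ∧ Cardinal.mk B = c}

/-- `κ` is Ulam-measurable: some set of size `κ` carries a free ultrafilter closed under countable
intersections. -/
def UlamMeasurable (κ : Cardinal.{u}) : Prop :=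
  ∃ S : Type u, Cardinal.mk S = κ ∧ ∃ U : Ultrafilter S, (∀ s : S, ({s}ᶜ : Set S) ∈ U) ∧
    ∀ A : ℕ → Set S, (∀ n, A n ∈ U) → (⋂ n, A n) ∈ U

/-- Q1: every sequentially complete, locally minimal Hausdorff abelian group `G` satisfies
`w(c(G)) = w(c(G̃))`. -/
def Q1 : Prop :=
  ∀ (G : Type u) [AddCommGroup G] [UniformSpace G] [IsUniformAddGroup G] [T2Space G],
    SeqComplete G → LocallyMinimal G →
      weight (connectedComponent (0 : G)) =
        weight (connectedComponent (0 : UniformSpace.Completion G))

/-- Q2: if moreover `w(c(G))` is not Ulam-measurable, then `c(G) = c(G̃)`. -/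
def Q2 : Prop :=
  ∀ (G : Type u) [AddCommGroup G] [UniformSpace G] [IsUniformAddGroup G] [T2Space G],
    SeqComplete G → LocallyMinimal G → ¬ UlamMeasurable (weight (connectedComponent (0 : G))) →
      (fun g : G => (g : UniformSpace.Completion G)) '' connectedComponent (0 : G) =
        connectedComponent (0 : UniformSpace.Completion G)

end Pool.Agent.R881.SC
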