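import Mathlib
import Pool.Agent.R881.SC.Alg

set_option autoImplicit false

open Filter Topology Set

universe u

namespace Pool.Agent.R881.SC

/-- the subgroup of the multiples of `p` -/
def pE (E : Type u) [AddCommGroup E] (p : ℕ) : AddSubgroup E := (nsmulAddMonoidHom p : E →+ E).range

lemma mem_pE {E : Type u} [AddCommGroup E] {p : ℕ} {x : E} : x ∈ pE E p ↔ ∃ y, p • y = x := Iff.rfl

section
variable {E : Type u} [AddCommGroup E] {p : ℕ}

lemma quot_smul (x : E ⧸ pE E p) : p • x = 0 := by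
  obtain ⟨y, rfl⟩ := QuotientAddGroup.mk_surjective x
  rw [← QuotientAddGroup.mk_nsmul, QuotientAddGroup.eq_zero_iff]
  exact ⟨y, rfl⟩

lemma hom_pE (χ : E →+ ZMod p) {x : E} (hx : x ∈ pE E p) : χ x = 0 := by
  obtain ⟨y, rfl⟩ := hx
  simp

lemma exists_dual [Fact p.Prime] {V : Type u} [AddCommGroup V] [Module (ZMod p) V] {v : V}
    (hv : v ≠ 0) : ∃ φ : V →ₗ[ZMod p] ZMod p, φ v ≠ 0 := by
  have := mt (Module.forall_dual_apply_eq_zero_iff (ZMod p) v).1 hv
  push Not at this
  exact this

lemma exists_hom [Fact p.Prime] {x : E} (hx : x ∉ pE E p) : ∃ χ : E →+ ZMod p, χ x ≠ 0 := by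
  letI : Module (ZMod p) (E ⧸ pE E p) := AddCommGroup.zmodModule quot_smul
  have h0 : (QuotientAddGroup.mk x : E ⧸ pE E p) ≠ 0 := by
    rwa [Ne, QuotientAddGroup.eq_zero_iff]
  obtain ⟨φ, hφ⟩ := exists_dual (p := p) h0
  exact ⟨φ.toAddMonoidHom.comp (QuotientAddGroup.mk' (pE E p)), hφ⟩

lemma eventually_mem [Fact p.Prime] (d : ℕ → E)
    (h : ∀ χ : E →+ ZMod p, ∀ᶠ n in atTop, χ (d n) = 0) : ∀ᶠ n in atTop, d n ∈ pE E p := by
  letI : Module (ZMod p) (E ⧸ pE E p) := AddCommGroup.zmodModule quot_smul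
  have := eventually_zero (F := ZMod p) (fun n => (QuotientAddGroup.mk (d n) : E ⧸ pE E p))
    (fun φ => h (φ.toAddMonoidHom.comp (QuotientAddGroup.mk' (pE E p))))
  filter_upwards [this] with n hn
  rwa [QuotientAddGroup.eq_zero_iff] at hn

end

section
variable {E : Type u} [NormedAddCommGroup E] [CompleteSpace E]

lemma isClosed_pE (hn : ∀ (n : ℕ) (x : E), ‖n • x‖ = n * ‖x‖) {p : ℕ} (hp : 1 ≤ p) :
    IsClosed (pE E p : Set E) := by
  have h1 : AntilipschitzWith 1 (fun x : E => p • x) := by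
    apply AntilipschitzWith.of_le_mul_dist
    intro x y
    rw [dist_eq_norm, dist_eq_norm, ← nsmul_sub, hn]
    have : (1 : ℝ) ≤ p := by exact_mod_cast hp
    have h2 := norm_nonneg (x - y)
    simp only [NNReal.coe_one, one_mul]
    nlinarith
  have h2 : UniformContinuous (fun x : E => p • x) := by
    have : LipschitzWith p (fun x : E => p • x) := by
      apply LipschitzWith.of_dist_le_mul
      intro x y
      rw [dist_eq_norm, dist_eq_norm, ← nsmul_sub, hn]
      simp
    exact this.uniformContinuous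
  have := h1.isClosed_range h2
  exact this

/-- if all `ℤ/p`-valued homomorphisms stabilize along a convergent sequence, they stabilize at
the value at the limit -/
lemma hom_limit (hn : ∀ (n : ℕ) (x : E), ‖n • x‖ = n * ‖x‖) {p : ℕ} [Fact p.Prime]
    (x : ℕ → E) (e : E) (hx : Tendsto x atTop (𝓝 e)) (c : (E →+ ZMod p) → ZMod p)
    (hc : ∀ χ : E →+ ZMod p, ∀ᶠ n in atTop, χ (x n) = c χ) (χ : E →+ ZMod p) : χ e = c χ := by
  have hp1 : 1 ≤ p := (Fact.out : p.Prime).one_lt.le
  have h1 : ∀ᶠ n in atTop, x (n + 1) - x n ∈ pE E p := by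
    apply eventually_mem
    intro χ
    have h2 := hc χ
    have h3 : ∀ᶠ n in atTop, χ (x (n + 1)) = c χ := (tendsto_add_atTop_nat 1).eventually h2
    filter_upwards [h2, h3] with n hn1 hn2
    rw [map_sub, hn1, hn2, sub_self]
  obtain ⟨N, hN⟩ := eventually_atTop.1 h1
  have h2 : ∀ n ≥ N, x n - x N ∈ pE E p := by
    intro n hn
    induction n, hn using Nat.le_induction with
    | base => rw [sub_self]; exact zero_mem _
    | succ n hn ih =>
      have : x (n + 1) - x N = (x (n + 1) - x n) + (x n - x N) := by abel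
      rw [this]
      exact add_mem (hN n hn) ih
  have h3 : e - x N ∈ pE E p := by
    have : Tendsto (fun n => x n - x N) atTop (𝓝 (e - x N)) := hx.sub tendsto_const_nhds
    exact (isClosed_pE hn hp1).mem_of_tendsto this (eventually_atTop.2 ⟨N, h2⟩)
  obtain ⟨M, hM⟩ := eventually_atTop.1 (hc χ)
  have h4 := h2 (max N M) (le_max_left _ _)
  have h5 := hM (max N M) (le_max_right _ _)
  have h6 : χ (x N) = c χ := by
    have := hom_pE χ h4
    rw [map_sub, sub_eq_zero] at this
    rw [← this]; exact h5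
  have h7 := hom_pE χ h3
  rw [map_sub, sub_eq_zero] at h7
  rw [h7, h6]

/-- the common kernel of finitely many homomorphisms into finite groups is dense in a connected
group -/
lemma dense_ker [PreconnectedSpace E] {ι : Type u} (J : Finset ι) (q : ι → ℕ)
    (hq : ∀ i, q i ≠ 0) (χ : ∀ i, E →+ ZMod (q i)) (e : E) (ε : ℝ) (hε : 0 < ε) :
    ∃ e' : E, dist e' e < ε ∧ ∀ i ∈ J, χ i e' = 0 := by
  classical
  haveI : ∀ i, NeZero (q i) := fun i => ⟨hq i⟩
  let D : AddSubgroup E := ⨅ i : J, (χ i).ker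
  haveI : D.FiniteIndex := AddSubgroup.finiteIndex_iInf fun i => inferInstance
  haveI : D.topologicalClosure.FiniteIndex :=
    AddSubgroup.finiteIndex_of_le D.le_topologicalClosure
  have hcl : IsClosed (D.topologicalClosure : Set E) := D.isClosed_topologicalClosure
  have hop : IsOpen (D.topologicalClosure : Set E) :=
    AddSubgroup.isOpen_of_isClosed_of_finiteIndex _ hcl
  have huniv : (D.topologicalClosure : Set E) = Set.univ :=
    IsClopen.eq_univ ⟨hcl, hop⟩ ⟨0, zero_mem _⟩
  have he : e ∈ closure (D : Set E) := by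
    have : e ∈ (D.topologicalClosure : Set E) := by rw [huniv]; trivial
    exact this
  obtain ⟨e', he', hd⟩ := Metric.mem_closure_iff.1 he ε hε
  refine ⟨e', by rwa [dist_comm], ?_⟩
  intro i hi
  have : e' ∈ (χ i).ker := by
    have := AddSubgroup.mem_iInf.1 he' ⟨i, hi⟩
    exact this
  exact this

end

end Pool.Agent.R881.SC
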