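import Mathlib
import Pool.Agent.R881.SC.Hom

set_option autoImplicit false

open Filter Topology Set MeasureTheory

universe u

namespace Pool.Agent.R881.SC

section
variable {α : Type u} [MeasurableSpace α] {μ : Measure α}

lemma L1_nsmul_coe (n : ℕ) (f : α →₁[μ] ℤ) : ⇑(n • f) =ᵐ[μ] fun a => (n : ℤ) * f a := by
  induction n with
  | zero =>
    have := Lp.coeFn_zero ℤ 1 μ
    rw [zero_smul]
    filter_upwards [this] with a ha
    rw [ha]; simp
  | succ n ih =>
    rw [succ_nsmul]
    filter_upwards [Lp.coeFn_add (n • f) f, ih] with a h1 h2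
    rw [h1, Pi.add_apply, h2]
    push_cast; ring

lemma L1_norm_nsmul (n : ℕ) (f : α →₁[μ] ℤ) : ‖n • f‖ = n * ‖f‖ := by
  rw [L1.norm_eq_integral_norm, L1.norm_eq_integral_norm, ← integral_const_mul]
  apply integral_congr_ae
  filter_upwards [L1_nsmul_coe n f] with a ha
  rw [ha, norm_mul]
  simp

lemma L1_div (f : α →₁[μ] ℤ) (h : ∀ p : ℕ, p.Prime → f ∈ pE (α →₁[μ] ℤ) p) : f = 0 := by
  have h1 : ∀ p : Nat.Primes, ∀ᵐ a ∂μ, ((p : ℕ) : ℤ) ∣ f a := by
    intro p
    obtain ⟨g, hg⟩ := h p p.2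
    have hg' : (p : ℕ) • g = f := hg
    filter_upwards [L1_nsmul_coe (p : ℕ) g] with a ha
    rw [← hg', ha]
    exact dvd_mul_right _ _
  have h2 : ∀ᵐ a ∂μ, ∀ p : Nat.Primes, ((p : ℕ) : ℤ) ∣ f a := ae_all_iff.2 h1
  apply Lp.ext
  filter_upwards [h2, Lp.coeFn_zero ℤ 1 μ] with a ha h0
  rw [h0, Pi.zero_apply]
  by_contra hne
  obtain ⟨p, hp1, hp2⟩ := Nat.exists_infinite_primes ((f a).natAbs + 1)
  have h3 := ha ⟨p, hp2⟩
  have h4 := Int.natAbs_dvd_natAbs.2 h3
  simp only [Int.natAbs_natCast] at h4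
  have h5 := Nat.le_of_dvd (Int.natAbs_pos.2 hne) h4
  omega

lemma L1_preconnected (u : α → ℝ) (hu : Measurable u) (h0 : ∀ t, μ {a | u a = t} = 0)
    (h1 : ∀ᵐ a ∂μ, 0 < u a ∧ u a ≤ 1) : PreconnectedSpace (α →₁[μ] ℤ) := by
  have hm : ∀ t : ℝ, MeasurableSet {a | u a ≤ t} := fun t => measurableSet_le hu measurable_const
  constructor
  apply isPreconnected_of_forall 0
  intro f _
  have hf : Integrable f μ := L1.integrable_coeFn f
  let γ : ℝ → (α →₁[μ] ℤ) := fun t => (hf.indicator (hm t)).toL1 _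
  have hγ : Continuous γ := by
    rw [continuous_iff_continuousAt]
    intro s
    rw [ContinuousAt, tendsto_iff_norm_sub_tendsto_zero]
    have e : ∀ t, ‖γ t - γ s‖ =
        ∫ a, ‖{a | u a ≤ t}.indicator f a - {a | u a ≤ s}.indicator f a‖ ∂μ := by
      intro t
      rw [show γ t - γ s = ((hf.indicator (hm t)).sub (hf.indicator (hm s))).toL1 _ from rfl]
      rw [L1.norm_of_fun_eq_integral_norm]
      rfl
    simp only [e]
    have := tendsto_integral_filter_of_dominated_convergence (μ := μ) (l := 𝓝 s)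
      (F := fun t a => ‖{a | u a ≤ t}.indicator f a - {a | u a ≤ s}.indicator f a‖)
      (f := fun _ => (0 : ℝ)) (fun a => ‖f a‖) ?_ ?_ hf.norm ?_
    · simpa using this
    · filter_upwards with t
      exact ((hf.indicator (hm t)).sub (hf.indicator (hm s))).norm.aestronglyMeasurable
    · filter_upwards with t
      filter_upwards with a
      rw [norm_norm]
      by_cases h3 : u a ≤ t <;> by_cases h4 : u a ≤ s <;> simp [Set.indicator, h3, h4]
    · have hs : ∀ᵐ a ∂μ, u a ≠ s := by
        rw [ae_iff]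
        simpa using h0 s
      filter_upwards [hs] with a ha
      apply tendsto_const_nhds.congr'
      rcases lt_or_gt_of_ne ha with h3 | h3
      · filter_upwards [lt_mem_nhds h3] with t ht
        simp [Set.indicator, ht.le, h3.le]
      · filter_upwards [gt_mem_nhds h3] with t ht
        simp [Set.indicator, ht.not_ge, h3.not_ge]
  refine ⟨Set.range γ, Set.subset_univ _, ⟨0, ?_⟩, ⟨1, ?_⟩, ?_⟩
  · have : γ 0 = (integrable_zero α ℤ μ).toL1 _ := by
      simp only [γ]
      rw [Integrable.toL1_eq_toL1_iff]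
      filter_upwards [h1] with a ha
      simp [Set.indicator, ha.1.not_ge]
    rw [this]
    exact Integrable.toL1_zero _
  · have : γ 1 = hf.toL1 _ := by
      simp only [γ]
      rw [Integrable.toL1_eq_toL1_iff]
      filter_upwards [h1] with a ha
      simp [Set.indicator, ha.2]
    rw [this]
    exact Integrable.toL1_coeFn f hf
  · exact isPreconnected_range hγ

end

/-! ### the measure space -/

section
variable (ι : Type u)

/-- inclusion of a copy of the line -/
def emb {ι : Type u} (i : ι) : ℝ → (Σ _ : ι, ℝ) := fun x => ⟨i, x⟩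

/-- the disjoint union of `ι` copies of the unit interval -/
noncomputable def mu : Measure (Σ _ : ι, ℝ) :=
  Measure.sum fun i : ι => (volume.restrict (Ioc (0 : ℝ) 1)).map (emb i)

variable {ι}

lemma meas_iff {s : Set (Σ _ : ι, ℝ)} : MeasurableSet s ↔ ∀ i, MeasurableSet (emb i ⁻¹' s) := by
  unfold Sigma.instMeasurableSpace
  rw [MeasurableSpace.measurableSet_iInf]
  rfl

lemma measurable_mk (i : ι) : Measurable (emb i) :=
  fun _ hs => meas_iff.1 hs i

lemma measurable_snd' : Measurable (fun a : (Σ _ : ι, ℝ) => a.2) := by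
  intro s hs
  rw [meas_iff]
  intro i
  exact hs

lemma mu_apply {s : Set (Σ _ : ι, ℝ)} (hs : MeasurableSet s) :
    mu ι s = ∑' i, volume (emb i ⁻¹' s ∩ Ioc (0 : ℝ) 1) := by
  unfold mu
  rw [Measure.sum_apply _ hs]
  congr 1
  funext i
  rw [Measure.map_apply (measurable_mk i) hs, Measure.restrict_apply (meas_iff.1 hs i)]

lemma mu_eq (t : ℝ) : mu ι {a | a.2 = t} = 0 := by
  have hs : MeasurableSet {a : (Σ _ : ι, ℝ) | a.2 = t} :=
    measurable_snd' (measurableSet_singleton t)
  rw [mu_apply hs]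
  rw [ENNReal.tsum_eq_zero]
  intro i
  apply measure_mono_null _ (Real.volume_singleton (a := t))
  rintro x ⟨hx, -⟩
  exact hx

lemma mu_ae : ∀ᵐ a ∂(mu ι), 0 < a.2 ∧ a.2 ≤ 1 := by
  rw [ae_iff]
  have hs : MeasurableSet {a : (Σ _ : ι, ℝ) | ¬ (0 < a.2 ∧ a.2 ≤ 1)} :=
    (measurable_snd' (measurableSet_Ioc (a := (0 : ℝ)) (b := 1))).compl
  rw [mu_apply hs, ENNReal.tsum_eq_zero]
  intro i
  have : emb i ⁻¹' {a : (Σ _ : ι, ℝ) | ¬ (0 < a.2 ∧ a.2 ≤ 1)} ∩ Ioc (0 : ℝ) 1 = ∅ := by
    ext x
    simp only [mem_inter_iff, mem_preimage, mem_setOf_eq, mem_Ioc, mem_empty_iff_false, iff_false]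
    tauto
  rw [this, measure_empty]

/-- the fibre over `i` -/
def fib (i : ι) : Set (Σ _ : ι, ℝ) := {a | a.1 = i}

lemma meas_fib (i : ι) : MeasurableSet (fib i) := by
  rw [meas_iff]
  intro j
  by_cases h : j = i
  · have : emb j ⁻¹' fib i = Set.univ := by ext x; simp [fib, emb, h]
    rw [this]; exact MeasurableSet.univ
  · have : (emb j ⁻¹' fib i : Set ℝ) = ∅ := by ext x; simp [fib, emb, h]
    rw [this]; exact MeasurableSet.empty

lemma mu_fib (i : ι) : mu ι (fib i) = 1 := by
  classical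
  rw [mu_apply (meas_fib i), tsum_eq_single i]
  · have : emb i ⁻¹' fib i = Set.univ := by ext x; simp [fib, emb]
    rw [this, univ_inter, Real.volume_Ioc]
    simp
  · intro j h
    have : (emb j ⁻¹' fib i : Set ℝ) = ∅ := by ext x; simp [fib, emb, h]
    rw [this, empty_inter, measure_empty]

variable (ι)

/-- the normed group of integrable integer valued functions -/
abbrev EE : Type u := (Σ _ : ι, ℝ) →₁[mu ι] ℤ

instance : PreconnectedSpace (EE ι) := L1_preconnected _ measurable_snd' mu_eq mu_ae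

variable {ι}

/-- the indicator functions of the fibres -/
noncomputable def dl (i : ι) : EE ι :=
  indicatorConstLp 1 (meas_fib i) (by rw [mu_fib]; exact ENNReal.one_ne_top) (1 : ℤ)

lemma dist_dl {i j : ι} (h : i ≠ j) : 1 ≤ dist (dl i) (dl j) := by
  rw [dist_eq_norm, L1.norm_eq_integral_norm]
  have h1 : ∀ᵐ a ∂(mu ι), ‖(dl i - dl j) a‖ =
      ‖(fib i).indicator (fun _ => (1 : ℤ)) a - (fib j).indicator (fun _ => (1 : ℤ)) a‖ := by
    filter_upwards [Lp.coeFn_sub (dl i) (dl j),
      indicatorConstLp_coeFn (p := 1) (hs := meas_fib i)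
        (hμs := (by rw [mu_fib]; exact ENNReal.one_ne_top : mu ι (fib i) ≠ ⊤)) (c := (1 : ℤ)),
      indicatorConstLp_coeFn (p := 1) (hs := meas_fib j)
        (hμs := (by rw [mu_fib]; exact ENNReal.one_ne_top : mu ι (fib j) ≠ ⊤)) (c := (1 : ℤ))]
      with a h1 h2 h3
    rw [h1, Pi.sub_apply]
    unfold dl
    rw [h2, h3]
  rw [integral_congr_ae h1]
  have h2 : ∫ a, (fib i).indicator (fun _ => (1 : ℝ)) a ∂(mu ι) = 1 := by
    rw [integral_indicator (meas_fib i)]
    simp [Measure.real, mu_fib]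
  have hi : ∀ k : ι, Integrable ((fib k).indicator (fun _ => (1 : ℤ))) (mu ι) := by
    intro k
    rw [integrable_indicator_iff (meas_fib k)]
    exact integrableOn_const (by rw [mu_fib]; exact ENNReal.one_ne_top)
  have hi' : Integrable ((fib i).indicator (fun _ => (1 : ℝ))) (mu ι) := by
    rw [integrable_indicator_iff (meas_fib i)]
    exact integrableOn_const (by rw [mu_fib]; exact ENNReal.one_ne_top)
  rw [← h2]
  apply integral_mono hi' ((hi i).sub (hi j)).norm
  intro a
  by_cases h3 : a ∈ fib i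
  · have h4 : a ∉ fib j := by
      intro h4
      exact h (h3.symm.trans h4)
    simp [Set.indicator, h3, h4]
  · simp only [Set.indicator_of_notMem h3]
    exact norm_nonneg _

end

end Pool.Agent.R881.SC
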