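import Mathlib
import Pool.Agent.R881.SC.Defs

set_option autoImplicit false

open Filter Topology Set

universe u

namespace Pool.Agent.R881.SC

/-- criterion for local minimality of a subgroup of a product of a compact group and a normed
group -/
theorem locallyMinimal_of {K E : Type u} [AddCommGroup K] [TopologicalSpace K]
    [IsTopologicalAddGroup K] [CompactSpace K] [T2Space K] [NormedAddCommGroup E]
    (hn : ∀ (n : ℕ) (x : E), ‖n • x‖ = n * ‖x‖) (G : AddSubgroup (K × E))
    (hess : ∀ C : AddSubgroup K, IsClosed (C : Set K) → (∀ k ∈ C, (k, (0 : E)) ∈ G → k = 0) →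
      ∀ k ∈ C, k = 0) : LocallyMinimal G := by
  refine ⟨{g : G | ‖(g : K × E).2‖ < 1}, ?_, ?_⟩
  · have : IsOpen {g : G | ‖(g : K × E).2‖ < 1} :=
      isOpen_lt (continuous_norm.comp (continuous_snd.comp continuous_subtype_val)) continuous_const
    exact this.mem_nhds (by simp)
  intro H _ _ _ _ f hf hV
  set g : H → K × E := fun h => (f.symm h : K × E) with hg
  have g_add : ∀ h h', g (h + h') = g h + g h' := by intro h h'; simp [hg]
  have g_neg : ∀ h, g (-h) = -g h := by intro h; simp [hg]
  have g_zero : g 0 = 0 := by simp [hg]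
  -- second coordinate
  have h2 : Tendsto (fun h => (g h).2) (𝓝 0) (𝓝 0) := by
    rw [Metric.tendsto_nhds]
    intro ε hε
    obtain ⟨n, hn1⟩ := exists_nat_gt (1 / ε)
    have hn0 : (0 : ℝ) < n := lt_trans (by positivity) hn1
    have hc : ContinuousAt (fun h : H => n • h) 0 := (continuous_nsmul n).continuousAt
    have := hc.preimage_mem_nhds (by simpa using hV)
    filter_upwards [this] with h hh
    obtain ⟨v, hv, hvh⟩ := hh
    have hvh' : f v = n • h := hvh
    have e : v = n • f.symm h := by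
      rw [← map_nsmul, ← hvh', AddEquiv.symm_apply_apply]
    have e2 : (v : K × E).2 = n • (g h).2 := by rw [e]; simp [hg]
    simp only [mem_setOf_eq] at hv
    rw [e2, hn] at hv
    rw [dist_zero_right]
    have : 1 / ε * ‖(g h).2‖ < 1 ∨ ‖(g h).2‖ = 0 := by
      rcases (norm_nonneg (g h).2).eq_or_lt with h0 | h0
      · right; exact h0.symm
      · left
        calc 1 / ε * ‖(g h).2‖ < n * ‖(g h).2‖ := mul_lt_mul_of_pos_right hn1 h0
          _ < 1 := hv
    rcases this with h3 | h3
    · rw [one_div, inv_mul_lt_iff₀ hε] at h3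
      linarith
    · rw [h3]; exact hε
  -- cluster points of the first coordinate
  let C : Set K := {k | ∃ F : Filter H, F.NeBot ∧ F ≤ 𝓝 0 ∧ Tendsto (fun h => (g h).1) F (𝓝 k)}
  have hCc : ∀ k, k ∈ C ↔ MapClusterPt k (𝓝 (0 : H)) (fun h => (g h).1) := by
    intro k
    constructor
    · rintro ⟨F, hF, hF0, hFk⟩
      exact (hFk.mapClusterPt).mono hF0
    · intro hk
      obtain ⟨U, hU, hUk⟩ := mapClusterPt_iff_ultrafilter.1 hk
      exact ⟨U, U.neBot, hU, hUk⟩
  have hC0 : (0 : K) ∈ C := ⟨pure 0, inferInstance, pure_le_nhds 0, by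
    rw [tendsto_pure_left]
    intro s hs
    rw [g_zero]; exact mem_of_mem_nhds hs⟩
  have hCadd : ∀ {k k' : K}, k ∈ C → k' ∈ C → k + k' ∈ C := by
    rintro k k' ⟨F, hF, hF0, hFk⟩ ⟨F', hF', hF0', hFk'⟩
    refine ⟨map (fun p : H × H => p.1 + p.2) (F ×ˢ F'), inferInstance, ?_, ?_⟩
    · have : Tendsto (fun p : H × H => p.1 + p.2) (𝓝 (0 : H) ×ˢ 𝓝 (0 : H)) (𝓝 (0 + 0)) := by
        rw [← nhds_prod_eq]; exact continuous_add.continuousAt
      rw [add_zero] at this
      exact this.mono_left (prod_mono hF0 hF0')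
    · rw [tendsto_map'_iff]
      have : (fun h => (g h).1) ∘ (fun p : H × H => p.1 + p.2) =
          fun p : H × H => (g p.1).1 + (g p.2).1 := by
        funext p; simp only [Function.comp, g_add, Prod.fst_add]
      rw [this]
      exact (hFk.comp tendsto_fst).add (hFk'.comp tendsto_snd)
  have hCneg : ∀ {k : K}, k ∈ C → -k ∈ C := by
    rintro k ⟨F, hF, hF0, hFk⟩
    refine ⟨map (fun h => -h) F, inferInstance, ?_, ?_⟩
    · have : Tendsto (fun h : H => -h) (𝓝 0) (𝓝 (-0)) := continuous_neg.continuousAt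
      rw [neg_zero] at this
      exact this.mono_left hF0
    · rw [tendsto_map'_iff]
      have : (fun h => (g h).1) ∘ (fun h : H => -h) = fun h => -(g h).1 := by
        funext p; simp only [Function.comp, g_neg, Prod.fst_neg]
      rw [this]
      exact hFk.neg
  let CS : AddSubgroup K :=
    { carrier := C, add_mem' := hCadd, zero_mem' := hC0, neg_mem' := hCneg }
  have hCclosed : IsClosed (CS : Set K) := by
    have : (CS : Set K) = {k | ClusterPt k (map (fun h => (g h).1) (𝓝 (0 : H)))} := by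
      ext k; exact hCc k
    rw [this]
    exact isClosed_setOf_clusterPt
  have hCG : ∀ k ∈ CS, (k, (0 : E)) ∈ G → k = 0 := by
    rintro k ⟨F, hF, hF0, hFk⟩ hkG
    have t1 : Tendsto g F (𝓝 (k, 0)) := by
      have := hFk.prodMk_nhds (h2.mono_left hF0)
      exact this
    have t2 : Tendsto (fun h => f.symm h) F (𝓝 (⟨(k, 0), hkG⟩ : G)) := by
      rw [tendsto_subtype_rng]; exact t1
    have t3 : Tendsto (fun h => f (f.symm h)) F (𝓝 (f ⟨(k, 0), hkG⟩)) :=
      (hf.tendsto _).comp t2
    simp only [AddEquiv.apply_symm_apply] at t3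
    have t4 : f ⟨(k, 0), hkG⟩ = 0 := tendsto_nhds_unique t3 hF0
    rw [EmbeddingLike.map_eq_zero_iff] at t4
    have := congrArg (fun x : G => (x : K × E).1) t4
    simpa using this
  have h1 : Tendsto (fun h => (g h).1) (𝓝 0) (𝓝 0) := by
    apply le_nhds_of_unique_clusterPt
    intro k hk
    exact hess CS hCclosed hCG k ((hCc k).2 hk)
  have h3 : Tendsto (fun h => f.symm h) (𝓝 0) (𝓝 0) := by
    rw [tendsto_subtype_rng]
    have := h1.prodMk_nhds h2
    exact this
  rw [IsTopologicalAddGroup.isOpenMap_iff_nhds_zero]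
  intro U hU
  rw [mem_map] at hU
  have := h3 hU
  rw [mem_map] at this
  filter_upwards [this] with h hh
  simpa using hh

end Pool.Agent.R881.SC
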