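import Mathlib
import Pool.Agent.R881.SC.Defs
import Pool.Agent.R881.SC.LM
import Pool.Agent.R881.SC.Hom

set_option autoImplicit false

open Filter Topology Set

universe u

namespace Pool.Agent.R881.SC

/-- the finite cyclic group with the discrete uniformity -/
def Zm (n : ℕ) : Type := ZMod n

instance (n : ℕ) : AddCommGroup (Zm n) := inferInstanceAs (AddCommGroup (ZMod n))
instance (n : ℕ) : UniformSpace (Zm n) := ⊥
instance (n : ℕ) : DiscreteUniformity (Zm n) := ⟨rfl⟩
instance (n : ℕ) [NeZero n] : Finite (Zm n) := inferInstanceAs (Finite (ZMod n))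
instance (p : Nat.Primes) : NeZero ((p : ℕ) ^ 2) := ⟨pow_ne_zero 2 p.2.ne_zero⟩
instance (p : Nat.Primes) : Fact (p : ℕ).Prime := ⟨p.2⟩

/-- index set: homomorphisms to the groups `ℤ/p` -/
abbrev Idx (E : Type u) [AddCommGroup E] : Type u := Σ p : Nat.Primes, (E →+ ZMod p)

/-- the compact group -/
abbrev KK (E : Type u) [AddCommGroup E] : Type u := ∀ i : Idx E, Zm ((i.1 : ℕ) ^ 2)

/-- reduction mod `p` -/
def red (p : ℕ) : Zm (p ^ 2) →+ ZMod p :=
  (ZMod.castHom (dvd_pow_self p two_ne_zero) (ZMod p)).toAddMonoidHom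

lemma red_surj (p : ℕ) : Function.Surjective (red p) :=
  ZMod.castHom_surjective (dvd_pow_self p two_ne_zero)

lemma red_of_smul_eq_zero {p : ℕ} (hp : p.Prime) (x : Zm (p ^ 2)) (h : p • x = 0) : red p x = 0 := by
  haveI : NeZero (p ^ 2) := ⟨pow_ne_zero 2 hp.ne_zero⟩
  let x' : ZMod (p ^ 2) := x
  have h' : (p : ZMod (p ^ 2)) * x' = 0 := by
    have : p • x' = 0 := h
    rwa [nsmul_eq_mul] at this
  have h1 : ((p * x'.val : ℕ) : ZMod (p ^ 2)) = 0 := by
    push_cast
    rw [ZMod.natCast_zmod_val]; exact h'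
  rw [ZMod.natCast_eq_zero_iff] at h1
  have h2 : p ∣ x'.val := by
    obtain ⟨c, hc⟩ := h1
    exact ⟨c, Nat.eq_of_mul_eq_mul_left hp.pos (by rw [hc]; ring)⟩
  have h3 : red p x = ((x'.val : ℕ) : ZMod p) := by
    show ZMod.castHom (dvd_pow_self p two_ne_zero) (ZMod p) x' = _
    conv_lhs => rw [← ZMod.natCast_zmod_val x']
    rw [map_natCast]
  rw [h3, ZMod.natCast_eq_zero_iff]
  exact h2

lemma smul_of_mod {n m : ℕ} (x : Zm n) (h : m % n = 1 % n) : m • x = x := by
  let x' : ZMod n := x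
  have : m • x' = x' := by
    rw [nsmul_eq_mul]
    have : (m : ZMod n) = (1 : ℕ) := (ZMod.natCast_eq_natCast_iff' m 1 n).2 h
    rw [this, Nat.cast_one, one_mul]
  exact this

lemma smul_of_dvd {n m : ℕ} (x : Zm n) (h : n ∣ m) : m • x = 0 := by
  let x' : ZMod n := x
  have : m • x' = 0 := by
    rw [nsmul_eq_mul, (ZMod.natCast_eq_zero_iff m n).2 h, zero_mul]
  exact this

/-- the group -/
def GG (E : Type u) [AddCommGroup E] : AddSubgroup (KK E × E) where
  carrier := {g | ∀ i : Idx E, red i.1 (g.1 i) = i.2 g.2}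
  add_mem' := by
    intro a b ha hb i
    simp only [Prod.fst_add, Prod.snd_add, Pi.add_apply, map_add, ha i, hb i]
  zero_mem' := by intro i; simp
  neg_mem' := by
    intro a ha i
    simp only [Prod.fst_neg, Prod.snd_neg, Pi.neg_apply, map_neg, ha i]

lemma mem_GG {E : Type u} [AddCommGroup E] {g : KK E × E} :
    g ∈ GG E ↔ ∀ i : Idx E, red i.1 (g.1 i) = i.2 g.2 := Iff.rfl

/-- separation of the `p`-part -/
lemma exists_mult (p j : ℕ) (hp : p.Prime) : ∃ m : ℕ, m % p ^ 2 = 1 % p ^ 2 ∧
    ∀ q : ℕ, q.Prime → q ≠ p → q ≤ j → q ^ 2 ∣ m := by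
  classical
  set a := ∏ q ∈ (Finset.range (j + 1)).filter (fun q => q.Prime ∧ q ≠ p), q ^ 2 with ha
  have hcop : Nat.Coprime a (p ^ 2) := by
    apply Nat.Coprime.prod_left
    intro q hq
    rw [Finset.mem_filter] at hq
    exact Nat.Coprime.pow 2 2 ((Nat.coprime_primes hq.2.1 hp).2 hq.2.2)
  have h1 : 1 < p ^ 2 := Nat.one_lt_pow two_ne_zero hp.one_lt
  obtain ⟨b, -, hb⟩ := Nat.exists_mul_mod_eq_one_of_coprime hcop h1
  refine ⟨a * b, by rw [hb, Nat.mod_eq_of_lt h1], ?_⟩
  intro q hq hqp hqj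
  apply Dvd.dvd.mul_right
  apply Finset.dvd_prod_of_mem (fun q => q ^ 2)
  rw [Finset.mem_filter, Finset.mem_range]
  exact ⟨by omega, hq, hqp⟩

section
variable {E : Type u} [AddCommGroup E]

lemma essential (C : AddSubgroup (KK E)) (hC : IsClosed (C : Set (KK E)))
    (hG : ∀ k ∈ C, (k, (0 : E)) ∈ GG E → k = 0) : ∀ k ∈ C, k = 0 := by
  classical
  intro k hk
  by_contra hk0
  obtain ⟨i0, hi0⟩ : ∃ i, k i ≠ 0 := by
    by_contra h
    push Not at h
    exact hk0 (funext h)
  set p : Nat.Primes := i0.1 with hp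
  let y : KK E := fun i => if i.1 = p then k i else 0
  choose m hm1 hm2 using fun j => exists_mult p j p.2
  have hy : y ∈ C := by
    have ht : Tendsto (fun j => m j • k) atTop (𝓝 y) := by
      rw [tendsto_pi_nhds]
      intro i
      apply tendsto_const_nhds.congr'
      by_cases hip : i.1 = p
      · filter_upwards with j
        simp only [y, hip, if_true, Pi.smul_apply]
        symm
        apply smul_of_mod
        rw [hip]; exact hm1 j
      · filter_upwards [eventually_ge_atTop (i.1 : ℕ)] with j hj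
        simp only [y, hip, if_false, Pi.smul_apply]
        symm
        apply smul_of_dvd
        exact hm2 j i.1 i.1.2 (fun h => hip (Subtype.ext h)) hj
    exact hC.mem_of_tendsto ht (Eventually.of_forall fun j => nsmul_mem hk _)
  have hy0 : y ≠ 0 := by
    intro h
    have := congrFun h i0
    simp only [y, ← hp, if_true, Pi.zero_apply] at this
    exact hi0 this
  by_cases hpy : (p : ℕ) • y = 0
  · apply hy0
    apply hG y hy
    rw [mem_GG]
    intro i
    simp only [map_zero]
    by_cases hip : i.1 = p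
    · apply red_of_smul_eq_zero i.1.2
      have h1 : (p : ℕ) • y i = 0 := congrFun hpy i
      have e : (i.1 : ℕ) = (p : ℕ) := by rw [hip]
      exact (congrArg (fun m : ℕ => m • y i) e).trans h1
    · simp only [y, hip, if_false, map_zero]
  · apply hpy
    apply hG _ (nsmul_mem hy _)
    rw [mem_GG]
    intro i
    simp only [map_zero, Pi.smul_apply, map_nsmul]
    by_cases hip : i.1 = p
    · have h1 : ((i.1 : ℕ) • red i.1 (y i)) = 0 := by
        rw [nsmul_eq_mul, CharP.cast_eq_zero, zero_mul]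
      have e : (p : ℕ) = (i.1 : ℕ) := by rw [hip]
      exact (congrArg (fun m : ℕ => m • red i.1 (y i)) e).trans h1
    · simp only [y, hip, if_false, map_zero, smul_zero]

end

section
variable {E : Type u} [NormedAddCommGroup E] [CompleteSpace E]

theorem GG_locallyMinimal (hn : ∀ (n : ℕ) (x : E), ‖n • x‖ = n * ‖x‖) : LocallyMinimal (GG E) :=
  locallyMinimal_of hn (GG E) essential

theorem GG_seqComplete (hn : ∀ (n : ℕ) (x : E), ‖n • x‖ = n * ‖x‖) : SeqComplete (GG E) := by
  intro x hx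
  have h1 : CauchySeq (fun n => (x n : KK E × E)) := hx.map uniformContinuous_subtype_val
  obtain ⟨⟨k, e⟩, hke⟩ := cauchySeq_tendsto_of_complete h1
  have hk : Tendsto (fun n => (x n : KK E × E).1) atTop (𝓝 k) := (continuous_fst.tendsto _).comp hke
  have he : Tendsto (fun n => (x n : KK E × E).2) atTop (𝓝 e) := (continuous_snd.tendsto _).comp hke
  have hmem : (k, e) ∈ GG E := by
    rintro ⟨p, χ⟩
    have := hom_limit hn (fun n => (x n : KK E × E).2) e he (fun χ => red p (k ⟨p, χ⟩)) (by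
      intro χ
      have h2 := (tendsto_pi_nhds.1 hk) ⟨p, χ⟩
      rw [nhds_discrete, tendsto_pure] at h2
      filter_upwards [h2] with n hn
      rw [← hn]
      exact ((x n).2 ⟨p, χ⟩).symm) χ
    exact this.symm
  refine ⟨⟨(k, e), hmem⟩, ?_⟩
  rw [tendsto_subtype_rng]
  exact hke

theorem zero_prod_mem_closure [PreconnectedSpace E] (e : E) :
    ((0 : KK E), e) ∈ closure (GG E : Set (KK E × E)) := by
  classical
  rw [mem_closure_iff_nhds]
  intro U hU
  rw [mem_nhds_prod_iff] at hU
  obtain ⟨A, hA, B, hB, hAB⟩ := hU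
  rw [nhds_pi, Filter.mem_pi] at hA
  obtain ⟨J, hJ, t, ht, hJt⟩ := hA
  obtain ⟨ε, hε, hball⟩ := Metric.mem_nhds_iff.1 hB
  obtain ⟨e', he', hker⟩ := dense_ker hJ.toFinset (fun i : Idx E => (i.1 : ℕ))
    (fun i => i.1.2.ne_zero) (fun i => i.2) e ε hε
  choose lift hlift using fun i : Idx E => red_surj i.1 (i.2 e')
  let k : KK E := fun i => if i ∈ J then 0 else lift i
  refine ⟨(k, e'), hAB ⟨hJt ?_, hball he'⟩, ?_⟩
  · intro i hi
    simp only [k, hi, if_true]
    exact mem_of_mem_nhds (ht i)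
  · intro i
    by_cases hi : i ∈ J
    · simp only [k, hi, if_true, map_zero]
      exact (hker i (hJ.mem_toFinset.2 hi)).symm
    · simp only [k, hi, if_false, hlift]

theorem GG_component (hdiv : ∀ x : E, (∀ p : ℕ, p.Prime → x ∈ pE E p) → x = 0) :
    connectedComponent (0 : GG E) = {0} := by
  rw [Set.eq_singleton_iff_unique_mem]
  refine ⟨mem_connectedComponent, ?_⟩
  intro g hg
  have hc : Continuous (fun g : GG E => (g : KK E × E).1) :=
    continuous_fst.comp continuous_subtype_val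
  have h1 := hc.image_connectedComponent_eq_singleton (0 : GG E)
  have h2 : (g : KK E × E).1 = 0 := by
    have : (g : KK E × E).1 ∈ (fun g : GG E => (g : KK E × E).1) '' connectedComponent (0 : GG E) :=
      ⟨g, hg, rfl⟩
    rw [h1] at this
    simpa using this
  have h3 : (g : KK E × E).2 = 0 := by
    apply hdiv
    intro p hp
    haveI : Fact p.Prime := ⟨hp⟩
    by_contra hx
    obtain ⟨χ, hχ⟩ := exists_hom hx
    apply hχ
    have := g.2 ⟨⟨p, hp⟩, χ⟩
    rw [h2] at this
    simp only [Pi.zero_apply, map_zero] at this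
    exact this.symm
  apply Subtype.ext
  exact Prod.ext h2 h3

end

end Pool.Agent.R881.SC
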