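import Mathlib
import Pool.Agent.R881.SC.Defs
import Pool.Agent.R881.SC.Grp
import Pool.Agent.R881.SC.EE

set_option autoImplicit false

open Filter Topology Set

universe u

namespace Pool.Agent.R881.SC

section
variable (E : Type u) [NormedAddCommGroup E] [CompleteSpace E]

/-- the closure in the product as a completion -/
noncomputable def pkg : AbstractCompletion.{u, u} (GG E) where
  space := closure (GG E : Set (KK E × E))
  coe := fun g => ⟨(g : KK E × E), subset_closure g.2⟩
  uniformStruct := inferInstance
  complete := isClosed_closure.completeSpace_coe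
  separation := inferInstance
  isUniformInducing := by
    apply IsUniformInducing.of_comp (g := (Subtype.val : closure (GG E : Set (KK E × E)) → _))
      (uniformContinuous_subtype_val.subtype_mk _) uniformContinuous_subtype_val
    exact isUniformInducing_val (GG E : Set (KK E × E))
  dense := by
    intro x
    rw [mem_closure_iff_nhds]
    intro U hU
    rw [mem_nhds_subtype] at hU
    obtain ⟨V, hV, hVU⟩ := hU
    obtain ⟨y, hy1, hy2⟩ := mem_closure_iff_nhds.1 x.2 V hV
    exact ⟨⟨y, subset_closure hy2⟩, hVU hy1, ⟨⟨y, hy2⟩, rfl⟩⟩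

/-- the comparison of the two completions -/
noncomputable def cmp : (closure (GG E : Set (KK E × E))) ≃ᵤ UniformSpace.Completion (GG E) :=
  (pkg E).compareEquiv (UniformSpace.Completion.cPkg)

lemma cmp_coe (g : GG E) : cmp E ⟨(g : KK E × E), subset_closure g.2⟩ =
    (g : UniformSpace.Completion (GG E)) :=
  AbstractCompletion.compare_coe (pkg E) (UniformSpace.Completion.cPkg) g

variable {E}

/-- the embedding of `E` into the completion -/
noncomputable def jj [PreconnectedSpace E] (e : E) : UniformSpace.Completion (GG E) :=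
  cmp E ⟨(0, e), zero_prod_mem_closure e⟩

/-- the projection of the completion to `E` -/
noncomputable def PP (c : UniformSpace.Completion (GG E)) : E :=
  (((cmp E).symm c : closure (GG E : Set (KK E × E))) : KK E × E).2

lemma jj_cont [PreconnectedSpace E] : Continuous (jj (E := E)) := by
  apply (cmp E).continuous.comp
  exact (continuous_const.prodMk continuous_id).subtype_mk _

lemma PP_cont : Continuous (PP (E := E)) :=
  continuous_snd.comp (continuous_subtype_val.comp (cmp E).symm.continuous)

lemma PP_jj [PreconnectedSpace E] (e : E) : PP (jj e) = e := by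
  unfold PP jj
  rw [UniformEquiv.symm_apply_apply]

lemma jj_zero [PreconnectedSpace E] : jj (0 : E) = 0 := by
  have h := cmp_coe E (0 : GG E)
  rw [UniformSpace.Completion.coe_zero] at h
  exact h

lemma jj_mem [PreconnectedSpace E] (e : E) :
    jj e ∈ connectedComponent (0 : UniformSpace.Completion (GG E)) :=
  (isPreconnected_range (jj_cont (E := E))).subset_connectedComponent ⟨0, jj_zero⟩ ⟨e, rfl⟩

lemma weight_ge [PreconnectedSpace E] {ι : Type u} (dl : ι → E)
    (hdl : ∀ i j, i ≠ j → 1 ≤ dist (dl i) (dl j)) :
    Cardinal.mk ι ≤ weight (connectedComponent (0 : UniformSpace.Completion (GG E))) := by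
  apply le_csInf
  · exact ⟨_, {U | IsOpen U}, TopologicalSpace.isTopologicalBasis_opens, rfl⟩
  rintro c ⟨B, hB, rfl⟩
  let x : ι → connectedComponent (0 : UniformSpace.Completion (GG E)) := fun i => ⟨jj (dl i), jj_mem _⟩
  have h1 : ∀ i, ∃ b ∈ B, x i ∈ b ∧ b ⊆ {y | dist (PP (y : UniformSpace.Completion (GG E))) (dl i) < 1} := by
    intro i
    have hopen : IsOpen {y : connectedComponent (0 : UniformSpace.Completion (GG E)) |
        dist (PP (y : UniformSpace.Completion (GG E))) (dl i) < 1} :=
      isOpen_lt ((PP_cont.comp continuous_subtype_val).dist continuous_const) continuous_const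
    have hx : x i ∈ {y : connectedComponent (0 : UniformSpace.Completion (GG E)) |
        dist (PP (y : UniformSpace.Completion (GG E))) (dl i) < 1} := by
      show dist (PP (jj (dl i))) (dl i) < 1
      rw [PP_jj, dist_self]; exact one_pos
    exact hB.exists_subset_of_mem_open hx hopen
  choose b hb1 hb2 hb3 using h1
  apply Cardinal.mk_le_of_injective (f := fun i => (⟨b i, hb1 i⟩ : B))
  intro i j hij
  by_contra hne
  have h2 : b i = b j := congrArg Subtype.val hij
  have h3 : x j ∈ b i := by rw [h2]; exact hb2 j
  have h4 : dist (PP (jj (dl j))) (dl i) < 1 := hb3 i h3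
  rw [PP_jj] at h4
  exact absurd (hdl j i (Ne.symm hne)) (not_le.2 h4)

end

lemma weight_le_one (X : Type u) [TopologicalSpace X] [Subsingleton X] : weight X ≤ 1 := by
  apply csInf_le'
  refine ⟨{Set.univ}, ?_, Cardinal.mk_singleton _⟩
  apply TopologicalSpace.isTopologicalBasis_of_isOpen_of_nhds
  · rintro u hu
    rw [mem_singleton_iff] at hu
    rw [hu]; exact isOpen_univ
  · intro a u ha hu
    refine ⟨Set.univ, rfl, trivial, ?_⟩
    intro b _
    rw [Subsingleton.elim b a]; exact ha

lemma not_ulam {κ : Cardinal.{u}} (h : κ ≤ 1) : ¬ UlamMeasurable κ := by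
  rintro ⟨S, hS, U, hU, -⟩
  rw [← hS, Cardinal.le_one_iff_subsingleton] at h
  obtain ⟨s, -⟩ := U.neBot.nonempty_of_mem (Filter.univ_mem (f := (U : Filter S)))
  have h1 := hU s
  have h2 : ({s}ᶜ : Set S) = ∅ := by
    ext t
    simp [Subsingleton.elim t s]
  rw [h2] at h1
  exact U.empty_notMem h1

theorem main (κ : Cardinal.{u}) :
    ∃ (G : Type u) (_ : AddCommGroup G) (_ : UniformSpace G) (_ : IsUniformAddGroup G)
      (_ : T2Space G), SeqComplete G ∧ LocallyMinimal G ∧ connectedComponent (0 : G) = {0} ∧
        κ ≤ weight (connectedComponent (0 : UniformSpace.Completion G)) := by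
  let ι : Type u := κ.out
  refine ⟨GG (EE ι), inferInstance, inferInstance, inferInstance, inferInstance,
    GG_seqComplete L1_norm_nsmul, GG_locallyMinimal L1_norm_nsmul, GG_component L1_div, ?_⟩
  have := weight_ge (E := EE ι) dl (fun i j h => dist_dl h)
  rwa [Cardinal.mk_out] at this

theorem not_Q1 : ¬ Q1.{u} := by
  intro h
  obtain ⟨G, i1, i2, i3, i4, h1, h2, h3, h4⟩ := main.{u} 2
  have h5 := h G h1 h2
  haveI : Subsingleton (connectedComponent (0 : G)) := by rw [h3]; infer_instance
  have h6 := weight_le_one (connectedComponent (0 : G))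
  rw [h5] at h6
  have h7 := h4.trans h6
  exact absurd h7 (by norm_num)

theorem not_Q2 : ¬ Q2.{u} := by
  intro h
  obtain ⟨G, i1, i2, i3, i4, h1, h2, h3, h4⟩ := main.{u} 2
  haveI : Subsingleton (connectedComponent (0 : G)) := by rw [h3]; infer_instance
  have h6 := weight_le_one (connectedComponent (0 : G))
  have h5 := h G h1 h2 (not_ulam h6)
  haveI : Subsingleton (connectedComponent (0 : UniformSpace.Completion G)) := by
    rw [← h5, h3, image_singleton]; infer_instance
  have h7 := h4.trans (weight_le_one _)
  exact absurd h7 (by norm_num)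

end Pool.Agent.R881.SC
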